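import Mathlib

/-!
# Fréchet algebras, Fréchet modules, injectivity and injective coresolutions

All vector spaces are complex.  Nothing is bundled beyond what is written here.
-/

set_option autoImplicit false

universe u v w

namespace Pool.Agent.K9h47.Frechet

/-- The complex vector space `X`, with its uniformity, is a Fréchet space: the uniformity is the
one of a topological vector space which is locally convex, complete and metrizable
(in particular Hausdorff). -/
structure IsFrechetSpace (X : Type u) [AddCommGroup X] [Module ℂ X] [UniformSpace X] : Prop where
  isUniformAddGroup : IsUniformAddGroup X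
  continuousSMul : ContinuousSMul ℂ X
  locallyConvexSpace : LocallyConvexSpace ℝ X
  completeSpace : CompleteSpace X
  metrizableSpace : TopologicalSpace.MetrizableSpace X

/-- A Fréchet algebra: an associative complex algebra (with or without identity, commutative or
not) whose underlying vector space is a Fréchet space and whose multiplication is jointly
continuous. -/
structure FrechetAlgebra where
  /-- the underlying set -/
  carrier : Type u
  /-- the (associative, not necessarily unital) ring structure -/
  [ring : NonUnitalRing carrier]
  /-- the complex vector space structure -/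
  [module : Module ℂ carrier]
  /-- the uniformity -/
  [uniformSpace : UniformSpace carrier]
  /-- the multiplication is homogeneous in the left variable -/
  smul_mul : ∀ (t : ℂ) (a b : carrier), (t • a) * b = t • (a * b)
  /-- the multiplication is homogeneous in the right variable -/
  mul_smul : ∀ (t : ℂ) (a b : carrier), a * (t • b) = t • (a * b)
  /-- the underlying space is a Fréchet space -/
  frechet : IsFrechetSpace carrier
  /-- the multiplication is jointly continuous -/
  continuous_mul : Continuous fun p : carrier × carrier => p.1 * p.2

attribute [instance] FrechetAlgebra.ring FrechetAlgebra.module FrechetAlgebra.uniformSpace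

/-- `e` is a two-sided identity element of the Fréchet algebra `A`. -/
def FrechetAlgebra.IsIdentity (A : FrechetAlgebra.{u}) (e : A.carrier) : Prop :=
  ∀ a : A.carrier, e * a = a ∧ a * e = a

/-- A Fréchet (left) module over the Fréchet algebra `A`: a Fréchet space with a bilinear,
associative and jointly continuous action of `A`.  If `A` has an identity element, then this
element is required to act as the identity map; if `A` has no identity element, then the last
condition is void. -/
structure FrechetModule (A : FrechetAlgebra.{u}) where
  /-- the underlying set -/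
  carrier : Type v
  /-- the additive group structure -/
  [addCommGroup : AddCommGroup carrier]
  /-- the complex vector space structure -/
  [module : Module ℂ carrier]
  /-- the uniformity -/
  [uniformSpace : UniformSpace carrier]
  /-- the underlying space is a Fréchet space -/
  frechet : IsFrechetSpace carrier
  /-- the action, a bilinear map -/
  act : A.carrier →ₗ[ℂ] carrier →ₗ[ℂ] carrier
  /-- the action is associative -/
  act_mul : ∀ (a b : A.carrier) (x : carrier), act (a * b) x = act a (act b x)
  /-- the action is jointly continuous -/
  continuous_act : Continuous fun p : A.carrier × carrier => act p.1 p.2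
  /-- an identity element of the algebra, if there is one, acts as the identity map -/
  act_identity : ∀ e : A.carrier, A.IsIdentity e → ∀ x : carrier, act e x = x

attribute [instance] FrechetModule.addCommGroup FrechetModule.module FrechetModule.uniformSpace

/-- Continuous linear maps between (the underlying Fréchet spaces of) Fréchet `A`-modules. -/
abbrev Lin {A : FrechetAlgebra.{u}} (X : FrechetModule.{u, v} A) (Y : FrechetModule.{u, w} A) :
    Type (max v w) := X.carrier →L[ℂ] Y.carrier

/-- The continuous linear map `φ : X → Y` is `A`-linear, that is, a morphism of Fréchet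
`A`-modules. -/
def IsModuleMap {A : FrechetAlgebra.{u}} {X : FrechetModule.{u, v} A} {Y : FrechetModule.{u, w} A}
    (φ : Lin X Y) : Prop :=
  ∀ (a : A.carrier) (x : X.carrier), φ (X.act a x) = Y.act a (φ x)

/-- `ψ` is a left inverse of `φ`: one has `ψ (φ x) = x` for all `x`. -/
def IsLeftInverse {A : FrechetAlgebra.{u}} {X : FrechetModule.{u, v} A}
    {Y : FrechetModule.{u, w} A} (ψ : Lin Y X) (φ : Lin X Y) : Prop :=
  ∀ x : X.carrier, ψ (φ x) = x

/-- The Fréchet `A`-module `X` is injective: every morphism of Fréchet `A`-modules `φ : X → Y`
that has a continuous linear left inverse also has a continuous `A`-linear left inverse. -/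
def FrechetModule.IsInjective {A : FrechetAlgebra.{u}} (X : FrechetModule.{u, v} A) : Prop :=
  ∀ (Y : FrechetModule.{u, v} A) (φ : Lin X Y), IsModuleMap φ →
    (∃ ψ : Lin Y X, IsLeftInverse ψ φ) →
      ∃ ψ : Lin Y X, IsModuleMap ψ ∧ IsLeftInverse ψ φ

/-- Two composable continuous linear maps with composition zero. -/
def IsZeroComp {A : FrechetAlgebra.{u}} {X : FrechetModule.{u, v} A} {Y Z : FrechetModule.{u, w} A}
    (f : Lin X Y) (g : Lin Y Z) : Prop :=
  ∀ x : X.carrier, g (f x) = 0

/-- The maps `f : W → Y`, `g : Y → Z` of a complex and the maps `k : Y → W`, `l : Z → Y` satisfy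
the identity `f k + l g = id` on `Y` of a contracting homotopy. -/
def IsHomotopyAt {A : FrechetAlgebra.{u}} {W : FrechetModule.{u, v} A}
    {Y Z : FrechetModule.{u, w} A} (f : Lin W Y) (g : Lin Y Z) (k : Lin Y W) (l : Lin Z Y) :
    Prop :=
  ∀ y : Y.carrier, f (k y) + l (g y) = y

/-- A sequence `0 → X → J 0 → J 1 → J 2 → ⋯` of Fréchet `A`-modules and continuous `A`-linear maps
(the maps are `ε`, `d 0`, `d 1`, ...), in which any two consecutive maps have composition zero. -/
structure ModuleComplex {A : FrechetAlgebra.{u}} (X : FrechetModule.{u, v} A) where
  /-- the modules -/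
  J : ℕ → FrechetModule.{u, w} A
  /-- the augmentation -/
  ε : Lin X (J 0)
  /-- the differentials -/
  d : ∀ n, Lin (J n) (J (n + 1))
  ε_isModuleMap : IsModuleMap ε
  d_isModuleMap : ∀ n, IsModuleMap (d n)
  isZeroComp_zero : IsZeroComp ε (d 0)
  isZeroComp_succ : ∀ n, IsZeroComp (d n) (d (n + 1))

/-- The complex `0 → X → J 0 → J 1 → J 2 → ⋯` splits as a complex of topological vector spaces:
it has a contracting homotopy consisting of continuous linear maps `h : J 0 → X` and
`s n : J (n + 1) → J n`. -/
def ModuleComplex.IsAdmissible {A : FrechetAlgebra.{u}} {X : FrechetModule.{u, v} A}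
    (C : ModuleComplex.{u, v, w} X) : Prop :=
  ∃ (h : Lin (C.J 0) X) (s : ∀ n, Lin (C.J (n + 1)) (C.J n)),
    IsLeftInverse h C.ε ∧ IsHomotopyAt C.ε (C.d 0) h (s 0) ∧
      ∀ n, IsHomotopyAt (C.d n) (C.d (n + 1)) (s n) (s (n + 1))

/-- The Fréchet `A`-module `X` has an injective coresolution: an admissible complex
`0 → X → J 0 → J 1 → J 2 → ⋯` of Fréchet `A`-modules in which every `J n` is injective. -/
def FrechetModule.HasInjectiveCoresolution {A : FrechetAlgebra.{u}} (X : FrechetModule.{u, v} A) :
    Prop :=
  ∃ C : ModuleComplex.{u, v, w} X, C.IsAdmissible ∧ ∀ n, (C.J n).IsInjective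

end Pool.Agent.K9h47.Frechet
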