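import Pool.Agent.K9h47.Frechet.Defs

/-!
# The key lemma

If a Fréchet algebra contains an element `z` whose powers tend to zero very strongly
(every neighbourhood of zero contains a whole line spanned by a power of `z`) and such that every
module `J` can be enlarged by one vector `y` with `z • y = x` (for any prescribed `x`), then every
injective Fréchet module is zero.
-/

set_option autoImplicit false

universe u v w

open Topology Filter

namespace Pool.Agent.K9h47.Frechet

noncomputable section

variable {A : FrechetAlgebra.{u}}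

/-- powers of `z` in an algebra without identity: `zpow z 0 = z`, `zpow z (n+1) = z * zpow z n` -/
def zpow (z : A.carrier) : ℕ → A.carrier
  | 0 => z
  | n + 1 => z * zpow z n

/-- data allowing to adjoin one preimage under `z` to any module. -/
structure Division (A : FrechetAlgebra.{u}) where
  z : A.carrier
  χ : A.carrier →L[ℂ] ℂ
  l : A.carrier →L[ℂ] ℂ
  D : A.carrier →L[ℂ] A.carrier
  χ_mul : ∀ a b, χ (a * b) = χ a * χ b
  l_mul : ∀ a b, l (a * b) = χ b * l a
  D_mul : ∀ a b, D (a * b) = l b • a + a * D b + χ b • D a
  χ_z : χ z = 0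
  z_cases : (l z = 1 ∧ D z = 0) ∨ (l z = 0 ∧ A.IsIdentity (D z))
  identity : ∀ e, A.IsIdentity e → χ e = 1 ∧ l e = 0 ∧ D e = 0
  line : ∀ U ∈ 𝓝 (0 : A.carrier), ∃ n, ∀ t : ℂ, t • zpow z n ∈ U

theorem isFrechetSpace_prod_complex {X : Type v} [AddCommGroup X] [Module ℂ X] [UniformSpace X]
    (h : IsFrechetSpace X) : IsFrechetSpace (X × ℂ) := by
  have h1 := h.isUniformAddGroup
  have h2 := h.continuousSMul
  have h3 := h.locallyConvexSpace
  have h4 := h.completeSpace
  have h5 := h.metrizableSpace
  refine ⟨inferInstance, inferInstance, ?_, inferInstance, inferInstance⟩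
  exact Prod.locallyConvexSpace

variable (S : Division A) (J : FrechetModule.{u, v} A)

/-- the operator `(a - χ(a)) / z` on `J` -/
def theta (a : A.carrier) (x : J.carrier) : J.carrier := S.l a • x + J.act (S.D a) x

theorem theta_mul (a b : A.carrier) (x : J.carrier) :
    theta S J (a * b) x = J.act a (theta S J b x) + S.χ b • theta S J a x := by
  unfold theta
  rw [S.l_mul, S.D_mul]
  simp only [map_add, map_smul, LinearMap.add_apply, LinearMap.smul_apply, J.act_mul, smul_add,
    mul_smul]
  abel

theorem theta_z (x : J.carrier) : theta S J S.z x = x := by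
  unfold theta
  rcases S.z_cases with ⟨h1, h2⟩ | ⟨h1, h2⟩
  · rw [h1, h2]; simp
  · rw [h1, J.act_identity _ h2]; simp

theorem theta_identity (e : A.carrier) (he : A.IsIdentity e) (x : J.carrier) :
    theta S J e x = 0 := by
  unfold theta
  obtain ⟨-, h2, h3⟩ := S.identity e he
  rw [h2, h3]; simp

/-- the module `J ⊕ ℂ y` with `z • y = x`. -/
def extend (x : J.carrier) : FrechetModule.{u, v} A where
  carrier := J.carrier × ℂ
  frechet := isFrechetSpace_prod_complex J.frechet
  act := LinearMap.mk₂ ℂ (fun a p => (J.act a p.1 + p.2 • theta S J a x, S.χ a * p.2))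
    (by
      intro a b p
      unfold theta
      ext
      · simp only [map_add, LinearMap.add_apply, add_smul, smul_add, Prod.fst_add]; abel
      · simp only [map_add, add_mul, Prod.snd_add])
    (by
      intro t a p
      unfold theta
      ext
      · have e1 : S.l (t • a) = t * S.l a := by rw [map_smul, smul_eq_mul]
        have e2 : S.D (t • a) = t • S.D a := by rw [map_smul]
        show J.act (t • a) p.1 + p.2 • (S.l (t • a) • x + J.act (S.D (t • a)) x)
          = t • (J.act a p.1 + p.2 • (S.l a • x + J.act (S.D a) x))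
        rw [e1, e2, map_smul, map_smul, LinearMap.smul_apply, LinearMap.smul_apply]
        module
      · simp only [map_smul, smul_eq_mul, Prod.smul_snd, mul_assoc])
    (by
      intro a p q
      ext
      · simp only [Prod.fst_add, Prod.snd_add, map_add, add_smul]; abel
      · simp only [Prod.snd_add, mul_add])
    (by
      intro t a p
      ext
      · simp only [Prod.smul_fst, Prod.smul_snd, map_smul, smul_add, smul_eq_mul, mul_smul]
      · simp only [Prod.smul_snd, smul_eq_mul]; ring)
  act_mul := by
    intro a b p
    simp only [LinearMap.mk₂_apply]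
    ext
    · simp only [J.act_mul, theta_mul, map_add, map_smul, smul_add, smul_smul]
      rw [mul_comm p.2 (S.χ b)]
      abel
    · simp only [S.χ_mul, mul_assoc]
  continuous_act := by
    have h1 := J.frechet.isUniformAddGroup
    have h2 := J.frechet.continuousSMul
    simp only [LinearMap.mk₂_apply]
    unfold theta
    have hJ := J.continuous_act
    refine Continuous.prodMk (Continuous.add ?_ (Continuous.smul (by fun_prop)
      (Continuous.add ?_ ?_))) (Continuous.mul ?_ (by fun_prop))
    · exact hJ.comp (Continuous.prodMk (by fun_prop) (by fun_prop))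
    · exact (S.l.continuous.comp continuous_fst).smul continuous_const
    · exact hJ.comp (Continuous.prodMk (S.D.continuous.comp continuous_fst) continuous_const)
    · exact S.χ.continuous.comp continuous_fst
  act_identity := by
    intro e he p
    simp only [LinearMap.mk₂_apply]
    ext
    · simp only [J.act_identity e he, theta_identity S J e he, smul_zero, add_zero]
    · simp only [(S.identity e he).1, one_mul]

theorem surjective_of_isInjective (hJ : J.IsInjective) (x : J.carrier) :
    ∃ w : J.carrier, J.act S.z w = x := by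
  let Y := extend S J x
  let φ : J.carrier →L[ℂ] J.carrier × ℂ := ContinuousLinearMap.inl ℂ J.carrier ℂ
  have hφ : IsModuleMap (A := A) (X := J) (Y := Y) φ := by
    intro a y
    show (J.act a y, (0 : ℂ)) = (J.act a y + (0 : ℂ) • theta S J a x, S.χ a * 0)
    simp
  obtain ⟨ψ, hψ1, hψ2⟩ := hJ Y φ hφ ⟨ContinuousLinearMap.fst ℂ J.carrier ℂ, fun y => rfl⟩
  let y : Y.carrier := ((0 : J.carrier), (1 : ℂ))
  have this : Y.act S.z y = φ x := by
    show (J.act S.z 0 + (1 : ℂ) • theta S J S.z x, S.χ S.z * 1) = (x, (0 : ℂ))
    rw [theta_z, S.χ_z]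
    simp
  refine ⟨ψ y, ?_⟩
  have h1 := hψ1 S.z y
  rw [this] at h1
  rw [← h1]
  exact hψ2 x

theorem act_zpow_surjective (hJ : J.IsInjective) (n : ℕ) (x : J.carrier) :
    ∃ w : J.carrier, J.act (zpow S.z n) w = x := by
  induction n generalizing x with
  | zero => exact surjective_of_isInjective S J hJ x
  | succ n ih =>
    obtain ⟨w, hw⟩ := surjective_of_isInjective S J hJ x
    obtain ⟨w', hw'⟩ := ih w
    refine ⟨w', ?_⟩
    show J.act (S.z * zpow S.z n) w' = x
    rw [J.act_mul, hw', hw]

include S in
/-- **Key lemma.** -/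
theorem subsingleton_of_isInjective (hJ : J.IsInjective) : Subsingleton J.carrier := by
  have h1 := J.frechet.isUniformAddGroup
  have h2 := J.frechet.continuousSMul
  have h5 := J.frechet.metrizableSpace
  have hT : T2Space J.carrier := inferInstance
  have key : ∀ x : J.carrier, x = 0 := by
    intro x
    have hx : ∀ U ∈ 𝓝 (0 : J.carrier), x ∈ U := by
      intro U hU
      have hc : Tendsto (fun p : A.carrier × J.carrier => J.act p.1 p.2)
          (𝓝 ((0 : A.carrier), (0 : J.carrier))) (𝓝 0) := by
        have := J.continuous_act.tendsto ((0 : A.carrier), (0 : J.carrier))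
        simpa using this
      have hU' := hc hU
      rw [nhds_prod_eq, Filter.mem_map] at hU'
      obtain ⟨V, hV, W, hW, hVW⟩ := Filter.mem_prod_iff.mp hU'
      obtain ⟨n, hn⟩ := S.line V hV
      obtain ⟨y, hy⟩ := act_zpow_surjective S J hJ n x
      -- find a nonzero scalar bringing `y` into `W`
      have hs : Tendsto (fun s : ℂ => s • y) (𝓝[≠] 0) (𝓝 0) := by
        have : Tendsto (fun s : ℂ => s • y) (𝓝 0) (𝓝 ((0 : ℂ) • y)) :=
          (continuous_id.smul continuous_const).tendsto 0
        rw [zero_smul] at this
        exact this.mono_left nhdsWithin_le_nhds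
      have hW' : ∀ᶠ s : ℂ in 𝓝[≠] 0, s • y ∈ W := hs.eventually hW
      have hmem : ∀ᶠ s : ℂ in 𝓝[≠] 0, s • y ∈ W ∧ s ≠ 0 :=
        hW'.and self_mem_nhdsWithin
      obtain ⟨s, hs1, hs2⟩ := hmem.exists
      have h3 : (s⁻¹ • zpow S.z n, s • y) ∈ V ×ˢ W := ⟨hn s⁻¹, hs1⟩
      have h4 := hVW h3
      simp only [Set.mem_preimage, map_smul, LinearMap.smul_apply, smul_smul] at h4
      rwa [mul_inv_cancel₀ hs2, one_smul, hy] at h4
    by_contra hne
    obtain ⟨U, V, hU, hV, hxU, h0V, hUV⟩ := t2_separation hne
    exact Set.disjoint_left.mp hUV hxU (hx V (hV.mem_nhds h0V))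
  exact ⟨fun a b => by rw [key a, key b]⟩

end

end Pool.Agent.K9h47.Frechet
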