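import Pool.Agent.K9h47.Frechet.Series

set_option autoImplicit false

universe u v w

namespace Pool.Agent.K9h47.Frechet

noncomputable section

/-- a Fréchet algebra with identity, or the copy of `X ℂ⟦X⟧`, is a module over itself. -/
def selfModule (A : FrechetAlgebra.{u}) : FrechetModule.{u, u} A where
  carrier := A.carrier
  frechet := A.frechet
  act := LinearMap.mk₂ ℂ (fun a b => a * b) (fun a b c => add_mul a b c)
    (fun t a b => A.smul_mul t a b) (fun a b c => mul_add a b c) (fun t a b => A.mul_smul t a b)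
  act_mul := fun a b c => mul_assoc a b c
  continuous_act := A.continuous_mul
  act_identity := fun _ he x => (he x).1

theorem nontrivial_ps : Nontrivial (PowerSeries ℂ) := inferInstance

theorem exists_nontrivial_algC : ∃ X : FrechetModule.{0, 0} algC, Nontrivial X.carrier :=
  ⟨selfModule algC, nontrivial_ps⟩

theorem exists_nontrivial_alg0 : ∃ X : FrechetModule.{0, 0} alg0, Nontrivial X.carrier :=
  ⟨selfModule alg0, nontrivial_ps⟩

theorem not_hasInjectiveCoresolution {A : FrechetAlgebra.{u}}
    (hA : ∀ J : FrechetModule.{u, w} A, J.IsInjective → Subsingleton J.carrier)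
    (X : FrechetModule.{u, v} A) (hX : Nontrivial X.carrier) :
    ¬ FrechetModule.HasInjectiveCoresolution.{u, v, w} X := by
  rintro ⟨C, ⟨h, s, hhε, -, -⟩, hJ⟩
  have h0 : Subsingleton (C.J 0).carrier := hA (C.J 0) (hJ 0)
  obtain ⟨x, y, hxy⟩ := hX
  apply hxy
  rw [← hhε x, ← hhε y, Subsingleton.elim (C.ε x) (C.ε y)]

theorem isIdentity_one_algC : algC.IsIdentity (1 : PowerSeries ℂ) := (isIdentity_iff_one _).2 rfl

theorem mul_comm_ps (a b : PowerSeries ℂ) : a * b = b * a := mul_comm a b

theorem mul0_comm (a b : PowerSeries ℂ) : mul0 a b = mul0 b a := by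
  unfold mul0; ring

end

end Pool.Agent.K9h47.Frechet
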