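import Pool.Agent.K9h47.Frechet.Key

/-!
# The two Fréchet algebras `ℂ⟦X⟧` and `X ℂ⟦X⟧`
-/

set_option autoImplicit false

universe u v w

open Topology Filter
open scoped PowerSeries.WithPiTopology

namespace Pool.Agent.K9h47.Frechet

noncomputable section

theorem isUniformAddGroup_ps : IsUniformAddGroup (PowerSeries ℂ) := inferInstance

theorem continuous_coeff_ps (n : ℕ) : Continuous fun f : PowerSeries ℂ => PowerSeries.coeff n f :=
  PowerSeries.WithPiTopology.continuous_coeff ℂ n

theorem continuous_to_ps {Z : Type*} [TopologicalSpace Z] (g : Z → PowerSeries ℂ)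
    (h : ∀ n, Continuous fun x => PowerSeries.coeff n (g x)) : Continuous g := by
  rw [continuous_iff_continuousAt]
  intro x
  unfold ContinuousAt
  rw [PowerSeries.WithPiTopology.tendsto_iff_coeff_tendsto]
  intro n
  exact (h n).tendsto x

theorem isFrechetSpace_ps : IsFrechetSpace (PowerSeries ℂ) := by
  refine ⟨inferInstance, ?_, ?_, inferInstance, ?_⟩
  · refine ⟨?_⟩
    refine continuous_to_ps _ fun n => ?_
    simp only [map_smul]
    exact continuous_fst.smul ((continuous_coeff_ps n).comp continuous_snd)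
  · show LocallyConvexSpace ℝ ((Unit →₀ ℕ) → ℂ)
    infer_instance
  · have h1 : (uniformity ((Unit →₀ ℕ) → ℂ)).IsCountablyGenerated := by
      infer_instance
    have h2 : T0Space ((Unit →₀ ℕ) → ℂ) := inferInstance
    show TopologicalSpace.MetrizableSpace ((Unit →₀ ℕ) → ℂ)
    infer_instance

theorem isIdentity_iff_one (e : PowerSeries ℂ) : (∀ a : PowerSeries ℂ, e * a = a ∧ a * e = a) ↔
    e = 1 := by
  constructor
  · intro h
    have := (h 1).1
    rwa [mul_one] at this
  · rintro rfl a
    exact ⟨one_mul a, mul_one a⟩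

/-- the Fréchet algebra of all formal power series -/
def algC : FrechetAlgebra.{0} where
  carrier := PowerSeries ℂ
  smul_mul := fun t a b => smul_mul_assoc t a b
  mul_smul := fun t a b => mul_smul_comm t a b
  frechet := isFrechetSpace_ps
  continuous_mul := by fun_prop

/-- the shift `f ↦ (f - f(0)) / X` -/
def shift : PowerSeries ℂ →L[ℂ] PowerSeries ℂ where
  toFun f := PowerSeries.mk fun n => PowerSeries.coeff (n + 1) f
  map_add' f g := by ext n; simp
  map_smul' t f := by ext n; simp
  cont := by
    refine continuous_to_ps _ fun n => ?_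
    simp only [PowerSeries.coeff_mk]
    exact continuous_coeff_ps (n + 1)

theorem X_mul_shift (f : PowerSeries ℂ) :
    PowerSeries.X * shift f = f - PowerSeries.C (PowerSeries.constantCoeff f) := by
  ext n
  cases n with
  | zero => simp
  | succ n =>
    rw [PowerSeries.coeff_succ_X_mul]
    simp [shift]

/-- the constant coefficient as a continuous functional -/
def const : PowerSeries ℂ →L[ℂ] ℂ where
  toFun f := PowerSeries.constantCoeff f
  map_add' f g := by simp
  map_smul' t f := by simp
  cont := PowerSeries.WithPiTopology.continuous_constantCoeff ℂ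

theorem tendsto_smul_X_pow (t : ℕ → ℂ) (c : ℕ) :
    Tendsto (fun n => t n • (PowerSeries.X : PowerSeries ℂ) ^ (n + c)) atTop (𝓝 0) := by
  rw [PowerSeries.WithPiTopology.tendsto_iff_coeff_tendsto]
  intro d
  refine tendsto_const_nhds.congr' ?_
  filter_upwards [eventually_gt_atTop d] with n hn
  rw [map_smul, PowerSeries.coeff_X_pow, if_neg (by omega)]
  simp

theorem line_ps (c : ℕ) (U : Set (PowerSeries ℂ)) (hU : U ∈ 𝓝 (0 : PowerSeries ℂ)) :
    ∃ n, ∀ t : ℂ, t • (PowerSeries.X : PowerSeries ℂ) ^ (n + c) ∈ U := by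
  by_contra hcon
  push Not at hcon
  choose t ht using hcon
  have h := (tendsto_smul_X_pow t c).eventually hU
  obtain ⟨n, hn⟩ := h.exists
  exact ht n hn

/-- cancellation of `X` -/
theorem X_cancel {f g : PowerSeries ℂ} (h : PowerSeries.X * f = PowerSeries.X * g) : f = g :=
  mul_left_cancel₀ PowerSeries.X_ne_zero h

theorem shift_mul (a b : PowerSeries ℂ) : shift (a * b) = (0 : ℂ) • a + a * shift b
    + (PowerSeries.constantCoeff b) • shift a := by
  apply X_cancel
  rw [zero_smul, zero_add, mul_add, mul_left_comm, X_mul_shift, X_mul_shift, mul_smul_comm,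
    X_mul_shift, PowerSeries.smul_eq_C_mul, map_mul, map_mul]
  ring

theorem shift_X : shift (PowerSeries.X : PowerSeries ℂ) = 1 := by
  apply X_cancel
  rw [X_mul_shift]
  simp

theorem shift_one : shift (1 : PowerSeries ℂ) = 0 := by
  apply X_cancel
  rw [X_mul_shift]
  simp

theorem zpow_algC (m : ℕ) : (zpow (A := algC) (PowerSeries.X : PowerSeries ℂ) m : PowerSeries ℂ)
    = HPow.hPow (α := PowerSeries ℂ) (β := ℕ) PowerSeries.X (m + 1) := by
  induction m with
  | zero => exact (pow_one (PowerSeries.X : PowerSeries ℂ)).symm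
  | succ m ih =>
    have h1 : (zpow (A := algC) (PowerSeries.X : PowerSeries ℂ) (m + 1) : PowerSeries ℂ)
      = HMul.hMul (α := PowerSeries ℂ) (β := PowerSeries ℂ) PowerSeries.X
        (zpow (A := algC) (PowerSeries.X : PowerSeries ℂ) m) := rfl
    refine h1.trans ?_
    refine (congrArg (fun f : PowerSeries ℂ => PowerSeries.X * f) ih).trans ?_
    exact (pow_succ' (PowerSeries.X : PowerSeries ℂ) (m + 1)).symm

def divC : Division algC where
  z := (PowerSeries.X : PowerSeries ℂ)
  χ := const
  l := 0
  D := shift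
  χ_mul := fun a b => map_mul (PowerSeries.constantCoeff (R := ℂ)) a b
  l_mul := by intro a b; simp
  D_mul := fun a b => shift_mul a b
  χ_z := PowerSeries.constantCoeff_X
  z_cases := by
    right
    refine ⟨rfl, ?_⟩
    exact (isIdentity_iff_one _).2 shift_X
  identity := by
    intro e he
    have he' : e = (1 : PowerSeries ℂ) := (isIdentity_iff_one e).1 he
    refine ⟨?_, rfl, ?_⟩
    · rw [he']
      exact map_one (PowerSeries.constantCoeff (R := ℂ))
    · rw [he']
      exact shift_one
  line := by
    intro U hU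
    obtain ⟨n, hn⟩ := line_ps 1 U hU
    refine ⟨n, fun t => ?_⟩
    have h := hn t
    have h2 : t • zpow (A := algC) (PowerSeries.X : PowerSeries ℂ) n
        = t • (PowerSeries.X : PowerSeries ℂ) ^ (n + 1) :=
      congrArg (fun f : PowerSeries ℂ => t • f) (zpow_algC n)
    exact h2 ▸ h

/-! ### the algebra without identity -/

/-- a copy of the set of formal power series; the element `f` stands for `X * f` -/
def PS0 : Type := PowerSeries ℂ

/-- the multiplication of `X ℂ⟦X⟧`, transported along `f ↦ X * f` -/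
def mul0 (f g : PowerSeries ℂ) : PowerSeries ℂ := PowerSeries.X * (f * g)

theorem mul0_add (a b c : PowerSeries ℂ) : mul0 a (b + c) = mul0 a b + mul0 a c := by
  unfold mul0; ring

theorem add_mul0 (a b c : PowerSeries ℂ) : mul0 (a + b) c = mul0 a c + mul0 b c := by
  unfold mul0; ring

theorem zero_mul0 (a : PowerSeries ℂ) : mul0 0 a = 0 := by unfold mul0; ring

theorem mul0_zero (a : PowerSeries ℂ) : mul0 a 0 = 0 := by unfold mul0; ring

theorem mul0_assoc (a b c : PowerSeries ℂ) : mul0 (mul0 a b) c = mul0 a (mul0 b c) := by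
  unfold mul0; ring

theorem smul_mul0 (t : ℂ) (a b : PowerSeries ℂ) : mul0 (t • a) b = t • mul0 a b := by
  unfold mul0
  rw [smul_mul_assoc, mul_smul_comm]

theorem mul0_smul (t : ℂ) (a b : PowerSeries ℂ) : mul0 a (t • b) = t • mul0 a b := by
  unfold mul0
  rw [mul_smul_comm, mul_smul_comm]

theorem continuous_mul0 : Continuous fun p : PowerSeries ℂ × PowerSeries ℂ => mul0 p.1 p.2 := by
  unfold mul0
  fun_prop

instance : AddCommGroup PS0 := inferInstanceAs (AddCommGroup (PowerSeries ℂ))
instance : Module ℂ PS0 := inferInstanceAs (Module ℂ (PowerSeries ℂ))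
instance : UniformSpace PS0 := inferInstanceAs (UniformSpace (PowerSeries ℂ))

instance : NonUnitalRing PS0 where
  mul := fun f g => mul0 f g
  left_distrib := mul0_add
  right_distrib := add_mul0
  zero_mul := zero_mul0
  mul_zero := mul0_zero
  mul_assoc := mul0_assoc

/-- the Fréchet algebra `X ℂ⟦X⟧` -/
def alg0 : FrechetAlgebra.{0} where
  carrier := PS0
  smul_mul := smul_mul0
  mul_smul := mul0_smul
  frechet := isFrechetSpace_ps
  continuous_mul := continuous_mul0

theorem mul0_ne_one (a b : PowerSeries ℂ) : mul0 a b ≠ 1 := by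
  intro h
  have h2 := congrArg (PowerSeries.constantCoeff (R := ℂ)) h
  unfold mul0 at h2
  simp at h2

theorem not_isIdentity_alg0 (e : alg0.carrier) : ¬ alg0.IsIdentity e := by
  intro h
  exact mul0_ne_one e (1 : PowerSeries ℂ) (h (1 : PowerSeries ℂ)).1

theorem shift_mul0 (a b : PowerSeries ℂ) :
    shift (mul0 a b) = (PowerSeries.constantCoeff b) • a + mul0 a (shift b) + (0 : ℂ) • shift a := by
  apply X_cancel
  unfold mul0
  rw [X_mul_shift, zero_smul, add_zero, mul_add, mul_left_comm (PowerSeries.X : PowerSeries ℂ) a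
    (shift b), X_mul_shift, PowerSeries.smul_eq_C_mul]
  simp
  ring

theorem const_mul0 (a b : PowerSeries ℂ) (t : ℂ) :
    const (mul0 a b) = (0 : ℂ) * t := by
  show PowerSeries.constantCoeff (PowerSeries.X * (a * b)) = (0 : ℂ) * t
  simp

theorem mul0_one_X_pow (m : ℕ) : mul0 1 (PowerSeries.X ^ m) = PowerSeries.X ^ (m + 1) := by
  unfold mul0
  ring

theorem zpow_alg0 (m : ℕ) : (zpow (A := alg0) (1 : PowerSeries ℂ) m : PowerSeries ℂ)
    = HPow.hPow (α := PowerSeries ℂ) (β := ℕ) PowerSeries.X m := by
  induction m with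
  | zero => exact (pow_zero (PowerSeries.X : PowerSeries ℂ)).symm
  | succ m ih =>
    have h1 : (zpow (A := alg0) (1 : PowerSeries ℂ) (m + 1) : PowerSeries ℂ)
      = mul0 1 (zpow (A := alg0) (1 : PowerSeries ℂ) m) := rfl
    refine h1.trans ?_
    refine (congrArg (fun f : PowerSeries ℂ => mul0 1 f) ih).trans ?_
    exact mul0_one_X_pow m

def div0 : Division alg0 where
  z := (1 : PowerSeries ℂ)
  χ := 0
  l := const
  D := shift
  χ_mul := by intro a b; simp
  l_mul := fun a b => const_mul0 a b _
  D_mul := fun a b => shift_mul0 a b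
  χ_z := rfl
  z_cases := by
    left
    exact ⟨map_one (PowerSeries.constantCoeff (R := ℂ)), shift_one⟩
  identity := fun e he => (not_isIdentity_alg0 e he).elim
  line := by
    intro U hU
    obtain ⟨n, hn⟩ := line_ps 0 U hU
    refine ⟨n, fun t => ?_⟩
    have h := hn t
    have h2 : t • zpow (A := alg0) (1 : PowerSeries ℂ) n
        = t • (PowerSeries.X : PowerSeries ℂ) ^ (n + 0) :=
      congrArg (fun f : PowerSeries ℂ => t • f) (zpow_alg0 n)
    exact h2 ▸ h

end

end Pool.Agent.K9h47.Frechet
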